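import Pool.Agent.Helper21.W4.St2

/-!
# Wilf in embedding dimension four: module Lb (the losses in type 2)
-/

set_option autoImplicit false

namespace Pool.Agent.Helper80.W4

open Pool.Agent.Helper21.W4 Finset

/-- monotonicity of a finite array in both arguments -/
private theorem ar_anti {B : ℕ} {h : ℕ → ℕ → ℕ} (hA : Ar B h) {p p' q q' : ℕ} (hp : p' ≤ p)
    (hq : q' ≤ q) : h p q ≤ h p' q' := by
  have h1 : ∀ (a b c : ℕ), h (a + b) c ≤ h a c := by
    intro a b c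
    induction b with
    | zero => exact le_refl _
    | succ b ih => exact le_trans (hA.a1 (a + b) c) ih
  have h2 : ∀ (a b c : ℕ), h a (c + b) ≤ h a c := by
    intro a b c
    induction b with
    | zero => exact le_refl _
    | succ b ih => exact le_trans (hA.a2 a (c + b)) ih
  obtain ⟨k, rfl⟩ := Nat.exists_eq_add_of_le hp
  obtain ⟨l, rfl⟩ := Nat.exists_eq_add_of_le hq
  exact le_trans (h1 p' k _) (h2 p' l q')

/-- the region is closed downwards inside the block -/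
private theorem inR_down {B : ℕ} {h : ℕ → ℕ → ℕ} (hA : Ar B h) {ci ck p q p' q' : ℕ}
    (hR : inR h ci 1 ck p q) (hp : p' ≤ p) (hq : q' ≤ q) (hc : ci ≤ p') (h1 : 1 ≤ q') :
    inR h ci 1 ck p' q' := by
  obtain ⟨_, _, h3, h4, h5⟩ := hR
  exact ⟨hc, h1, lt_of_lt_of_le h3 (ar_anti hA hp hq), lt_of_lt_of_le h4 (ar_anti hA hp le_rfl),
    lt_of_lt_of_le h5 (ar_anti hA le_rfl hq)⟩

/-- the region -/
private def Rg (B : ℕ) (h : ℕ → ℕ → ℕ) (ci ck : ℕ) : Finset (ℕ × ℕ) :=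
  (range B ×ˢ range B).filter (fun x => inR h ci 1 ck x.1 x.2)

/-- the first row of the region -/
private def P1 (B : ℕ) (h : ℕ → ℕ → ℕ) (ci ck : ℕ) : Finset ℕ :=
  (range B).filter (fun p => inR h ci 1 ck p 1)

private theorem arith_blk {k r ρ R : ℕ} (h1 : 2 ≤ k) (h2 : r ≤ ρ) (h3 : ρ + r ≤ R + 1)
    (h4 : 1 ≤ r) : k * r + 2 * ρ ≤ 2 * ((k - 1) * R) + 2 := by
  obtain ⟨k, rfl⟩ := Nat.exists_eq_add_of_le h1
  obtain ⟨t, rfl⟩ := Nat.exists_eq_add_of_le h2
  obtain ⟨m, rfl⟩ := Nat.exists_eq_add_of_le h4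
  obtain ⟨s, hs⟩ := Nat.exists_eq_add_of_le h3
  have hR : R = 1 + 2 * m + t + s := by omega
  subst hR
  have hk : 2 + k - 1 = k + 1 := by omega
  rw [hk]
  nlinarith [Nat.zero_le (k * m), Nat.zero_le (k * t), Nat.zero_le (k * s)]

/-- the loss of one array whose second cap coordinate is 1 -/
private theorem blk (B : ℕ) (h : ℕ → ℕ → ℕ) (ci ck : ℕ) (hA : Ar B h) (hk : 2 ≤ ck) :
    loss B h ci 1 ck + 2 * (P1 B h ci ck).card ≤ 2 * ((ck - 1) * (Rg B h ci ck).card) + 2 := by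
  have hk1 : ck ≠ 1 := by omega
  have hloss : loss B h ci 1 ck = ck * rr B h ci 1 ck := by
    unfold loss
    rw [if_neg hk1]
  rw [hloss]
  set M : Finset (ℕ × ℕ) := (range B ×ˢ range B).filter
    (fun x => inR h ci 1 ck x.1 x.2 ∧ ¬ inR h ci 1 ck (x.1 + 1) x.2 ∧
      ¬ inR h ci 1 ck x.1 (x.2 + 1)) with hM
  have hrr : rr B h ci 1 ck = M.card := rfl
  rw [hrr]
  have hmem : ∀ x ∈ M, x.1 < B ∧ x.2 < B ∧ inR h ci 1 ck x.1 x.2 ∧
      ¬ inR h ci 1 ck (x.1 + 1) x.2 ∧ ¬ inR h ci 1 ck x.1 (x.2 + 1) := by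
    intro x hx
    rw [hM, mem_filter, mem_product, mem_range, mem_range] at hx
    exact ⟨hx.1.1, hx.1.2, hx.2⟩
  -- the first row contains a copy of the maximal elements
  have hMP : M.card ≤ (P1 B h ci ck).card := by
    apply Finset.card_le_card_of_injOn (fun x => x.1)
    · intro x hx
      obtain ⟨h1, h2, h3, h4, h5⟩ := hmem x hx
      rw [mem_coe, P1, mem_filter, mem_range]
      exact ⟨h1, inR_down hA h3 le_rfl h3.2.1 h3.1 le_rfl⟩
    · intro x hx y hy hxy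
      obtain ⟨_, _, h3, h4, h5⟩ := hmem x hx
      obtain ⟨_, _, g3, g4, g5⟩ := hmem y hy
      simp only at hxy
      rcases lt_trichotomy x.2 y.2 with hlt | heq | hgt
      · exact absurd (inR_down hA g3 (le_of_eq hxy) hlt (h3.1) (by omega)) h5
      · exact Prod.ext hxy heq
      · exact absurd (inR_down hA h3 (le_of_eq hxy.symm) hgt (g3.1) (by omega)) g5
  -- at most one maximal element lies in the first row
  have hM1 : (M.filter (fun x => x.2 = 1)).card ≤ 1 := by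
    rw [Finset.card_le_one]
    intro x hx y hy
    rw [mem_filter] at hx hy
    obtain ⟨_, _, h3, h4, h5⟩ := hmem x hx.1
    obtain ⟨_, _, g3, g4, g5⟩ := hmem y hy.1
    have h2 := hx.2
    have g2 := hy.2
    have h21 : x.2 = y.2 := by rw [h2, g2]
    rcases lt_trichotomy x.1 y.1 with hlt | heq | hgt
    · exact absurd (inR_down hA g3 hlt (le_of_eq h21) (by have := h3.1; omega) (by omega)) h4
    · exact Prod.ext heq h21
    · exact absurd (inR_down hA h3 hgt (le_of_eq h21.symm) (by have := g3.1; omega) (by omega)) g4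
  have hMs : M.card ≤ (M.filter (fun x => ¬ x.2 = 1)).card + 1 := by
    have := Finset.card_filter_add_card_filter_not (s := M) (fun x => x.2 = 1)
    omega
  -- the region
  have hPim : ((P1 B h ci ck).image (fun p => (p, 1))).card = (P1 B h ci ck).card := by
    apply Finset.card_image_of_injective
    intro a b hab
    exact (Prod.ext_iff.mp hab).1
  have hRg : (P1 B h ci ck).card + (M.filter (fun x => ¬ x.2 = 1)).card ≤ (Rg B h ci ck).card := by
    rw [← hPim, ← Finset.card_union_of_disjoint]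
    · apply Finset.card_le_card
      intro x hx
      rw [mem_union, mem_image, mem_filter] at hx
      rw [Rg, mem_filter, mem_product, mem_range, mem_range]
      rcases hx with ⟨p, hp, rfl⟩ | ⟨hx, _⟩
      · rw [P1, mem_filter, mem_range] at hp
        refine ⟨⟨hp.1, ?_⟩, hp.2⟩
        by_contra hB
        have hz := hA.z2 p 1 (by simp only at hB; omega)
        have := hp.2.2.2.1
        omega
      · obtain ⟨h1, h2, h3, _, _⟩ := hmem x hx
        exact ⟨⟨h1, h2⟩, h3⟩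
    · rw [Finset.disjoint_left]
      intro x hx hx'
      rw [mem_image] at hx
      rw [mem_filter] at hx'
      obtain ⟨p, _, rfl⟩ := hx
      exact hx'.2 rfl
  rcases Nat.eq_zero_or_pos M.card with h0 | hpos
  · rw [h0, mul_zero, zero_add]
    have h1 : (P1 B h ci ck).card ≤ (Rg B h ci ck).card := by omega
    have h2 : 1 * (Rg B h ci ck).card ≤ (ck - 1) * (Rg B h ci ck).card :=
      Nat.mul_le_mul_right _ (by omega)
    omega
  · exact arith_blk hk hMP (by omega) hpos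

/-- the interior points, an upper bound for any finite set of them -/
private theorem bk_ge (B : ℕ) (h1 h2 h3 : ℕ → ℕ → ℕ) (hP : PP B h1 h2 h3)
    (Q : Finset (ℕ × ℕ × ℕ))
    (hQ : ∀ x ∈ Q, 1 ≤ x.1 ∧ 1 ≤ x.2.1 ∧ 1 ≤ x.2.2 ∧ x.1 < h1 x.2.1 x.2.2) :
    Q.card ≤ bk B h3 := by
  have hS : bk B h3 = ((range B ×ˢ range B).sigma
      (fun x : ℕ × ℕ => range (h3 (x.1 + 1) (x.2 + 1) - 1))).card := by
    rw [Finset.card_sigma, Finset.sum_product]
    unfold bk
    simp only [card_range]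
  rw [hS]
  apply Finset.card_le_card_of_injOn
    (fun x : ℕ × ℕ × ℕ => (⟨(x.1 - 1, x.2.1 - 1), x.2.2 - 1⟩ : (_ : ℕ × ℕ) × ℕ))
  · intro x hx
    obtain ⟨a1, a2, a3, a4⟩ := hQ x hx
    obtain ⟨b1, b2, b3⟩ := hP.bd _ _ _ a4
    have hr := (hP.e13 _ _ _).mp a4
    have e1 : x.1 - 1 + 1 = x.1 := by omega
    have e2 : x.2.1 - 1 + 1 = x.2.1 := by omega
    simp only [coe_sigma, Set.mem_sigma_iff, coe_product, Set.mem_prod, coe_range, Set.mem_Iio]
    rw [e1, e2]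
    refine ⟨⟨by omega, by omega⟩, by omega⟩
  · intro x hx y hy hxy
    obtain ⟨a1, a2, a3, a4⟩ := hQ x hx
    obtain ⟨b1, b2, b3, b4⟩ := hQ y hy
    simp only [Sigma.mk.injEq, Prod.mk.injEq, heq_eq_eq] at hxy
    obtain ⟨⟨c1, c2⟩, c3⟩ := hxy
    refine Prod.ext (by omega) (Prod.ext (by omega) (by omega))

/-- **StLb** -/
theorem hLb : StLb := by
  intro hAr hCap B h1 h2 h3 c1 c2 hC h11 hc1 hc2
  have hP := hC.pp
  have hP0 : PP0 B h1 h2 h3 := ⟨hP.e12, hP.e13, hP.bd⟩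
  obtain ⟨A1, A2, A3, _⟩ := hAr B h1 h2 h3 hP0
  obtain ⟨K3, K2, K1⟩ := hCap B h1 h2 h3 c1 c2 1 hC
  have L1 := blk B h1 c2 c1 A1 hc1
  have L2 := blk B h2 c1 c2 A2 hc2
  have L3 : loss B h3 c1 c2 1 = 0 := by
    unfold loss
    rw [if_pos rfl]
  -- the values of the arrays on the regions
  have V1 : ∀ q r, inR h1 c2 1 c1 q r → h1 q r = c1 := by
    intro q r hR
    obtain ⟨a1, a2, a3, a4, a5⟩ := hR
    have := (K1 q r a3).1 ⟨a1, a2⟩
    omega
  have V2 : ∀ p r, inR h2 c1 1 c2 p r → h2 p r = c2 := by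
    intro p r hR
    obtain ⟨a1, a2, a3, a4, a5⟩ := hR
    have := (K2 p r a3).1 ⟨a1, a2⟩
    omega
  -- the pieces
  set T1 : Finset (ℕ × ℕ × ℕ) := (Ico 1 c1) ×ˢ (Rg B h1 c2 c1) with hT1
  set T2 : Finset (ℕ × ℕ × ℕ) := ((Rg B h2 c1 c2) ×ˢ (Ico 1 c2)).image
    (fun y : (ℕ × ℕ) × ℕ => (y.1.1, y.2, y.1.2)) with hT2
  have cT1 : T1.card = (c1 - 1) * (Rg B h1 c2 c1).card := by
    rw [hT1, card_product, Nat.card_Ico]
  have cT2 : T2.card = (c2 - 1) * (Rg B h2 c1 c2).card := by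
    rw [hT2, Finset.card_image_of_injective, card_product, Nat.card_Ico, mul_comm]
    intro a b hab
    simp only [Prod.mk.injEq] at hab
    exact Prod.ext (Prod.ext hab.1 hab.2.2) hab.2.1
  have mT1 : ∀ x ∈ T1, 1 ≤ x.1 ∧ x.1 < c1 ∧ x.2.1 < B ∧ inR h1 c2 1 c1 x.2.1 x.2.2 := by
    intro x hx
    rw [hT1, mem_product, mem_Ico, Rg, mem_filter, mem_product, mem_range, mem_range] at hx
    exact ⟨hx.1.1, hx.1.2, hx.2.1.1, hx.2.2⟩
  have mT2 : ∀ x ∈ T2, 1 ≤ x.2.1 ∧ x.2.1 < c2 ∧ x.1 < B ∧ inR h2 c1 1 c2 x.1 x.2.2 := by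
    intro x hx
    rw [hT2, mem_image] at hx
    obtain ⟨y, hy, rfl⟩ := hx
    rw [mem_product, mem_Ico, Rg, mem_filter, mem_product, mem_range, mem_range] at hy
    exact ⟨hy.2.1, hy.2.2, hy.1.1.1, hy.1.2⟩
  set Y1 := T1.filter (fun x => ¬ (x.1 = 1 ∧ x.2.2 = 1)) with hY1
  set Y2 := T2.filter (fun x => ¬ (x.2.1 = 1 ∧ x.2.2 = 1)) with hY2
  have cY1 : T1.card ≤ Y1.card + (P1 B h1 c2 c1).card := by
    have e : (T1.filter (fun x => x.1 = 1 ∧ x.2.2 = 1)).card + Y1.card = T1.card := by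
      rw [hY1]
      exact Finset.card_filter_add_card_filter_not _
    have i : (T1.filter (fun x => x.1 = 1 ∧ x.2.2 = 1)).card ≤ (P1 B h1 c2 c1).card := by
      apply Finset.card_le_card_of_injOn (fun x => x.2.1)
      · intro x hx
        rw [mem_coe, mem_filter] at hx
        obtain ⟨hx, a1, a2⟩ := hx
        obtain ⟨b1, b2, b3, b4⟩ := mT1 x hx
        rw [a2] at b4
        rw [mem_coe, P1, mem_filter, mem_range]
        exact ⟨b3, b4⟩
      · intro x hx y hy hxy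
        rw [mem_coe, mem_filter] at hx hy
        exact Prod.ext (hx.2.1.trans hy.2.1.symm) (Prod.ext hxy (hx.2.2.trans hy.2.2.symm))
    omega
  have cY2 : T2.card ≤ Y2.card + (P1 B h2 c1 c2).card := by
    have e : (T2.filter (fun x => x.2.1 = 1 ∧ x.2.2 = 1)).card + Y2.card = T2.card := by
      rw [hY2]
      exact Finset.card_filter_add_card_filter_not _
    have i : (T2.filter (fun x => x.2.1 = 1 ∧ x.2.2 = 1)).card ≤ (P1 B h2 c1 c2).card := by
      apply Finset.card_le_card_of_injOn (fun x => x.1)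
      · intro x hx
        rw [mem_coe, mem_filter] at hx
        obtain ⟨hx, a1, a2⟩ := hx
        obtain ⟨b1, b2, b3, b4⟩ := mT2 x hx
        rw [a2] at b4
        rw [mem_coe, P1, mem_filter, mem_range]
        exact ⟨b3, b4⟩
      · intro x hx y hy hxy
        rw [mem_coe, mem_filter] at hx hy
        exact Prod.ext hxy (Prod.ext (hx.2.1.trans hy.2.1.symm) (hx.2.2.trans hy.2.2.symm))
    omega
  -- the spine
  set X1 := (Ico 1 (h1 1 1)).image (fun i : ℕ => (i, 1, 1)) with hX1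
  set X2 := (Ico 2 (h2 1 1)).image (fun i : ℕ => (1, i, 1)) with hX2
  set X3 := (Ico 2 (h3 1 1)).image (fun i : ℕ => (1, 1, i)) with hX3
  have cX1 : X1.card = h1 1 1 - 1 := by
    rw [hX1, Finset.card_image_of_injective, Nat.card_Ico]
    intro a b hab
    simp only [Prod.mk.injEq] at hab
    exact hab.1
  have cX2 : X2.card = h2 1 1 - 2 := by
    rw [hX2, Finset.card_image_of_injective, Nat.card_Ico]
    intro a b hab
    simp only [Prod.mk.injEq] at hab
    exact hab.2.1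
  have cX3 : X3.card = h3 1 1 - 2 := by
    rw [hX3, Finset.card_image_of_injective, Nat.card_Ico]
    intro a b hab
    simp only [Prod.mk.injEq] at hab
    exact hab.2.2
  have mX1 : ∀ x ∈ X1, 1 ≤ x.1 ∧ x.1 < h1 1 1 ∧ x.2.1 = 1 ∧ x.2.2 = 1 := by
    intro x hx
    rw [hX1, mem_image] at hx
    obtain ⟨i, hi, rfl⟩ := hx
    rw [mem_Ico] at hi
    exact ⟨hi.1, hi.2, rfl, rfl⟩
  have mX2 : ∀ x ∈ X2, x.1 = 1 ∧ 2 ≤ x.2.1 ∧ x.2.1 < h2 1 1 ∧ x.2.2 = 1 := by
    intro x hx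
    rw [hX2, mem_image] at hx
    obtain ⟨i, hi, rfl⟩ := hx
    rw [mem_Ico] at hi
    exact ⟨rfl, hi.1, hi.2, rfl⟩
  have mX3 : ∀ x ∈ X3, x.1 = 1 ∧ x.2.1 = 1 ∧ 2 ≤ x.2.2 ∧ x.2.2 < h3 1 1 := by
    intro x hx
    rw [hX3, mem_image] at hx
    obtain ⟨i, hi, rfl⟩ := hx
    rw [mem_Ico] at hi
    exact ⟨rfl, rfl, hi.1, hi.2⟩
  have mY1 : ∀ x ∈ Y1, 1 ≤ x.1 ∧ x.1 < c1 ∧ c2 ≤ x.2.1 ∧ 1 ≤ x.2.2 ∧ h1 x.2.1 x.2.2 = c1 ∧
      ¬ (x.1 = 1 ∧ x.2.2 = 1) := by
    intro x hx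
    rw [hY1, mem_filter] at hx
    obtain ⟨b1, b2, b3, b4⟩ := mT1 x hx.1
    exact ⟨b1, b2, b4.1, b4.2.1, V1 _ _ b4, hx.2⟩
  have mY2 : ∀ x ∈ Y2, 1 ≤ x.2.1 ∧ x.2.1 < c2 ∧ c1 ≤ x.1 ∧ 1 ≤ x.2.2 ∧ h2 x.1 x.2.2 = c2 ∧
      ¬ (x.2.1 = 1 ∧ x.2.2 = 1) := by
    intro x hx
    rw [hY2, mem_filter] at hx
    obtain ⟨b1, b2, b3, b4⟩ := mT2 x hx.1
    exact ⟨b1, b2, b4.1, b4.2.1, V2 _ _ b4, hx.2⟩
  -- disjointness
  have d45 : Disjoint Y1 Y2 := by
    rw [Finset.disjoint_left]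
    intro x hx hy
    have a := mY1 x hx
    have b := mY2 x hy
    omega
  have d3 : Disjoint X3 (Y1 ∪ Y2) := by
    rw [Finset.disjoint_left]
    intro x hx hy
    have a := mX3 x hx
    rw [mem_union] at hy
    rcases hy with hy | hy
    · have b := mY1 x hy
      omega
    · have b := mY2 x hy
      omega
  have d2 : Disjoint X2 (X3 ∪ (Y1 ∪ Y2)) := by
    rw [Finset.disjoint_left]
    intro x hx hy
    have a := mX2 x hx
    rw [mem_union, mem_union] at hy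
    rcases hy with hy | hy | hy
    · have b := mX3 x hy
      omega
    · have b := mY1 x hy
      omega
    · have b := mY2 x hy
      omega
  have d1 : Disjoint X1 (X2 ∪ (X3 ∪ (Y1 ∪ Y2))) := by
    rw [Finset.disjoint_left]
    intro x hx hy
    have a := mX1 x hx
    rw [mem_union, mem_union, mem_union] at hy
    rcases hy with hy | hy | hy | hy
    · have b := mX2 x hy
      omega
    · have b := mX3 x hy
      omega
    · have b := mY1 x hy
      omega
    · have b := mY2 x hy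
      omega
  have hbk := bk_ge B h1 h2 h3 hP (X1 ∪ (X2 ∪ (X3 ∪ (Y1 ∪ Y2)))) (by
    intro x hx
    rw [mem_union, mem_union, mem_union, mem_union] at hx
    rcases hx with hx | hx | hx | hx | hx
    · obtain ⟨a1, a2, a3, a4⟩ := mX1 x hx
      rw [a3, a4]
      exact ⟨a1, le_rfl, le_rfl, a2⟩
    · obtain ⟨a1, a2, a3, a4⟩ := mX2 x hx
      have : 1 < h1 x.2.1 1 := (hP.e12 _ _ _).mpr a3
      rw [a1, a4]
      exact ⟨le_rfl, by omega, le_rfl, this⟩
    · obtain ⟨a1, a2, a3, a4⟩ := mX3 x hx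
      have : 1 < h1 1 x.2.2 := (hP.e13 _ _ _).mpr a4
      rw [a1, a2]
      exact ⟨le_rfl, le_rfl, by omega, this⟩
    · obtain ⟨a1, a2, a3, a4, a5, a6⟩ := mY1 x hx
      exact ⟨a1, by omega, a4, by omega⟩
    · obtain ⟨a1, a2, a3, a4, a5, a6⟩ := mY2 x hx
      have : x.1 < h1 x.2.1 x.2.2 := (hP.e12 _ _ _).mpr (by omega)
      exact ⟨by omega, a1, a4, this⟩)
  rw [Finset.card_union_of_disjoint d1, Finset.card_union_of_disjoint d2,
    Finset.card_union_of_disjoint d3, Finset.card_union_of_disjoint d45] at hbk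
  have h21 : 1 < h2 1 1 := (hP.e12 1 1 1).mp (by omega)
  have h31 : 1 < h3 1 1 := (hP.e13 1 1 1).mp (by omega)
  rw [L3]
  omega

end Pool.Agent.Helper80.W4
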