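import Pool.Agent.Helper21.W4.St3

/-!
# Wilf in embedding dimension four: module N1 (three pure inequalities)
-/

set_option autoImplicit false

namespace Pool.Agent.Helper80.W4

open Pool.Agent.Helper21.W4 Finset

private theorem good_of {Z V Y : ℤ} (h1 : Z ≤ Y) (h2 : Y ^ 2 ≤ 18 * V) : Good Z V := by
  rcases le_or_gt Z 0 with h | h
  · exact Or.inl h
  · right
    have : Z ^ 2 ≤ Y ^ 2 := by nlinarith
    linarith

/-- **StN1** -/
theorem hN1 : StN1 := by
  intro e f Z V a b he hf ha hb hZ hV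
  apply good_of hZ
  rcases eq_or_lt_of_le hf with h0 | h0
  · subst h0
    nlinarith [sq_nonneg (e - 1)]
  · nlinarith [sq_nonneg (e - f), sq_nonneg e, sq_nonneg f]

/-- **StN01b** -/
theorem hN01b : StN01b := by
  intro k1 k2 k3 a1 a2 a3 Z V h1 h2 h3 g1 g2 g3 b1 b2 b3 hZ hV
  have p1 : k1 = 0 ∨ 1 ≤ k1 := by omega
  have p2 : k2 = 0 ∨ 1 ≤ k2 := by omega
  have p3 : k3 = 0 ∨ 1 ≤ k3 := by omega
  have key : (7 + k1 + k2 + k3) ^ 2 ≤ 18 * V := by
    have s12 := sq_nonneg (k1 - k2)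
    have s13 := sq_nonneg (k1 - k3)
    have s23 := sq_nonneg (k2 - k3)
    rcases p1 with e1 | e1 <;> rcases p2 with e2 | e2 <;> rcases p3 with e3 | e3
    · rw [e1, e2, e3] at *
      nlinarith
    · rw [e1, e2] at *
      nlinarith
    · rw [e1, e3] at *
      nlinarith
    · rw [e1] at *
      nlinarith
    · rw [e2, e3] at *
      nlinarith
    · rw [e2] at *
      nlinarith
    · rw [e3] at *
      nlinarith
    · nlinarith
  exact good_of hZ key

/-- **StN01f** -/
theorem hN01f : StN01f := by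
  intro e k2 k3 a1 a2 a3 Z V he h2 h3 g2 g3 b1 b2 b3 hZ hV
  have key : (7 + 2 * e + k2 + k3) ^ 2 ≤ 18 * V := by
    rcases eq_or_lt_of_le h2 with e2 | e2
    · rcases eq_or_lt_of_le h3 with e3 | e3
      · rw [← e2, ← e3] at *
        nlinarith [sq_nonneg (e - 1)]
      · rw [← e2] at *
        nlinarith [sq_nonneg (e - k3), sq_nonneg e, sq_nonneg k3, sq_nonneg (e - 2 * k3)]
    · rcases eq_or_lt_of_le h3 with e3 | e3
      · rw [← e3] at *
        nlinarith [sq_nonneg (e - k2), sq_nonneg e, sq_nonneg k2, sq_nonneg (e - 2 * k2)]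
      · nlinarith [sq_nonneg (e - k2 - k3), sq_nonneg e, sq_nonneg (k2 - k3),
          sq_nonneg (4 * e - 7 * (k2 + k3)), sq_nonneg (e - 1)]
  exact good_of hZ key

end Pool.Agent.Helper80.W4
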